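import Pool.Agent.Run7.h818.FW.TGeo
set_option autoImplicit false
namespace Pool.Agent.Run7.h818.FW
open Finset Pool.Agent.Run7.h188.FW

lemma norm_eq_of_add_lt {L : Type} [NormedField L] [IsUltrametricDist L] {x y : L} {M : ℝ}
    (hM : max ‖x‖ ‖y‖ = M) (h : ‖x + y‖ < M) : ‖x‖ = M ∧ ‖y‖ = M := by
  have hxy : ‖x‖ = ‖y‖ := by
    by_contra hne
    rw [IsUltrametricDist.norm_add_eq_max_of_norm_ne_norm hne, hM] at h
    exact lt_irrefl _ h
  rw [← hxy, max_self] at hM
  exact ⟨hM, hxy ▸ hM⟩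

theorem t_T1 : S_TRB → S_T1 := by
  intro hTRB L _ _ κ d e hE hD z i j hi hj hij hlt hz hρ1 c hsum
  have h : Tie κ d e z i j := ⟨hE, hD, hij, hlt, hz⟩
  by_contra hcon
  push Not at hcon
  obtain ⟨l0, hl0, hcl0⟩ := hcon
  set ρ := rho κ z i j with hρ
  have hnρ : ‖ρ‖ = 1 := h.nrho
  have hρ0 : ρ ≠ 0 := by
    intro hh
    rw [hh, norm_zero] at hnρ
    exact zero_ne_one hnρ
  set Cb : ℝ := max ‖c i‖ ‖c j‖ with hCb
  have hCb0 : 0 ≤ Cb := le_trans (norm_nonneg _) (le_max_left _ _)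
  set B : ℕ → L := fun x => c i * T κ z i x + c j * T κ z j x with hB
  have hBform : ∀ x, B x = κ j ^ x * (c i * ρ ^ x + c j) + κ i ^ x * (c i + c j * ρ ^ x) := by
    intro x
    simp only [hB, T]
    rw [h.zi, h.zj, mul_pow, mul_pow, ← hρ]
    ring
  have hle1 : ∀ x, ‖c i * ρ ^ x‖ ≤ Cb := by
    intro x
    rw [norm_mul, norm_pow, hnρ, one_pow, mul_one]
    exact le_max_left _ _
  have hle2 : ∀ x, ‖c j * ρ ^ x‖ ≤ Cb := by
    intro x
    rw [norm_mul, norm_pow, hnρ, one_pow, mul_one]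
    exact le_max_right _ _
  have hI : i ∉ (range (d + 1)).erase i := Finset.notMem_erase _ _
  have hjI : j ∈ (range (d + 1)).erase i :=
    Finset.mem_erase.2 ⟨Ne.symm hij, Finset.mem_range.2 (by omega)⟩
  have hcard : ((range (d + 1)).erase i).card = d := by
    rw [Finset.card_erase_of_mem (Finset.mem_range.2 (by omega)), Finset.card_range]
    omega
  have hcore := core hTRB ((range (d + 1)).erase i) j hjI (sv κ z)
    (fun l _ => h.svpos l) (h.inj _ hI) e hE.mono c (T κ z)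
    (fun l hl hlj x => h.normT (Finset.mem_erase.1 hl).1 hlj x) Cb hCb0 B
    (by
      intro x
      rw [h.svj]
      refine bound hCb0 (hBform x) (by rw [norm_pow]) ?_
        (add_le' (hle1 x) (le_max_right _ _)) (add_le' (le_max_left _ _) (hle2 x))
      rw [norm_pow]
      exact pow_le_pow_left₀ (norm_nonneg _) hlt.le x)
    (by
      by_cases h1 : l0 = i
      · left
        subst h1
        exact lt_of_lt_of_le (norm_pos_iff.2 hcl0) (le_max_left _ _)
      · by_cases h2 : l0 = j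
        · left
          subst h2
          exact lt_of_lt_of_le (norm_pos_iff.2 hcl0) (le_max_right _ _)
        · right
          exact ⟨l0, Finset.mem_erase.2 ⟨h1, Finset.mem_range.2 (by omega)⟩, h2, hcl0⟩)
    (by
      intro k hk
      rw [hcard] at hk
      have h1 := hsum k (by omega)
      rw [← Finset.add_sum_erase _ _ (Finset.mem_range.2 (show i < d + 1 by omega)),
        ← Finset.add_sum_erase _ _ hjI] at h1
      simp only [hB]
      linear_combination h1)
  obtain ⟨hCpos, k, hk, hk3⟩ := hcore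
  rw [hcard] at hk
  -- the consequence
  have key : ∀ l, (l = k ∨ l = k + 1 ∨ l = k + 2) → ‖c i * ρ ^ (e l) + c j‖ < Cb := by
    intro l hl
    have hBl := hk3 l hl
    rw [h.svj] at hBl
    rcases Nat.eq_zero_or_pos (e l) with h0 | h0
    · rw [h0] at hBl ⊢
      have h2 : B 0 = 2 * (c i * ρ ^ 0 + c j) := by
        rw [hBform]; ring
      rw [h2, norm_mul, hD.two, one_mul] at hBl
      simpa using hBl
    · refine lead hCpos (hBform (e l)) (norm_pow _ _) ?_ (add_le' (le_max_left _ _) (hle2 _)) hBl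
      rw [norm_pow]
      exact pow_lt_pow_left₀ hlt (norm_nonneg _) h0.ne'
  have hmax : max ‖c i * ρ ^ (e k)‖ ‖c j‖ = Cb := by
    rw [norm_mul, norm_pow, hnρ, one_pow, mul_one]
  have hci : ‖c i‖ = Cb := by
    have := (norm_eq_of_add_lt hmax (key k (Or.inl rfl))).1
    rwa [norm_mul, norm_pow, hnρ, one_pow, mul_one] at this
  have hdiff : ∀ a b, a ≤ b → ‖c i * ρ ^ a + c j‖ < Cb → ‖c i * ρ ^ b + c j‖ < Cb →
      ‖ρ ^ (b - a) - 1‖ < 1 := by
    intro a b hab h1 h2
    have h3 := sub_lt' h2 h1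
    have h4 : c i * ρ ^ b + c j - (c i * ρ ^ a + c j) = c i * ρ ^ a * (ρ ^ (b - a) - 1) := by
      have : ρ ^ b = ρ ^ a * ρ ^ (b - a) := by
        rw [← pow_add]
        congr 1
        omega
      rw [this]
      ring
    rw [h4, norm_mul, norm_mul, norm_pow, hnρ, one_pow, mul_one, hci] at h3
    nlinarith
  have hg1 := hdiff (e k) (e (k + 1)) (hE.mono.monotone (by omega)) (key k (Or.inl rfl))
    (key (k + 1) (Or.inr (Or.inl rfl)))
  have hg2 := hdiff (e (k + 1)) (e (k + 2)) (hE.mono.monotone (by omega))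
    (key (k + 1) (Or.inr (Or.inl rfl))) (key (k + 2) (Or.inr (Or.inr rfl)))
  have hfin := near_of_coprime hρ0 (hE.cop k (by omega)) hg1 hg2
  have : ‖ρ - 1‖ = 1 := hρ1
  linarith

end Pool.Agent.Run7.h818.FW
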