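import Pool.Agent.Run7.h818.FW.TGeo
set_option autoImplicit false
namespace Pool.Agent.Run7.h818.FW
open Finset Pool.Agent.Run7.h188.FW

lemma theta_near {L : Type} [NormedField L] [IsUltrametricDist L] {ρ : L} (h : ‖ρ - 1‖ < 1)
    (x : ℕ) : ‖(∑ t ∈ range x, ρ ^ t) - (x : L)‖ < 1 := by
  by_cases hρ : ρ = 0
  · exfalso
    rw [hρ, zero_sub, norm_neg, norm_one] at h
    exact lt_irrefl _ h
  have hpow : ∀ t : ℕ, ‖ρ ^ t - 1‖ < 1 := by
    intro t
    have : (Units.mk0 ρ hρ) ^ t ∈ near L := (near L).pow_mem (show Units.mk0 ρ hρ ∈ near L from h) t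
    have h2 : ‖(((Units.mk0 ρ hρ) ^ t : Lˣ) : L) - 1‖ < 1 := this
    rwa [Units.val_pow_eq_pow_val] at h2
  have : (∑ t ∈ range x, ρ ^ t) - (x : L) = ∑ t ∈ range x, (ρ ^ t - 1) := by
    rw [Finset.sum_sub_distrib]
    simp
  rw [this]
  exact norm_sum_lt _ _ one_pos fun t _ => hpow t

theorem t_T2 : S_TRB → S_T2 := by
  intro hTRB L _ _ κ d e hE hD z i j hi hj hij hlt hz hρ1 c c' hci0 hsum
  have h : Tie κ d e z i j := ⟨hE, hD, hij, hlt, hz⟩
  by_contra hcon
  have hcon' : c' ≠ 0 ∨ ∃ l ≤ d, c l ≠ 0 := by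
    by_contra hh
    push Not at hh
    exact hcon hh
  set ρ := rho κ z i j with hρ
  have hnρ : ‖ρ‖ = 1 := h.nrho
  set θ : ℕ → L := fun x => ∑ t ∈ range x, ρ ^ t with hθ
  have hθn : ∀ x, ‖θ x - (x : L)‖ < 1 := fun x => theta_near hρ1 x
  have hθ1 : ∀ x, ‖θ x‖ ≤ 1 := by
    intro x
    have : θ x = (θ x - (x : L)) + (x : L) := by ring
    rw [this]
    exact add_le' (hθn x).le (IsUltrametricDist.norm_natCast_le_one L x)
  set Cb : ℝ := max ‖c'‖ ‖c j‖ with hCb
  have hCb0 : 0 ≤ Cb := le_trans (norm_nonneg _) (le_max_left _ _)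
  set B : ℕ → L := fun x => c' * Rp κ z i j x + c j * T κ z j x with hB
  have hBform : ∀ x, B x = κ j ^ x * (c' * θ x + c j) + κ i ^ x * (c j * ρ ^ x + -(c' * θ x)) := by
    intro x
    have hR : Rp κ z i j x = θ x * (κ j ^ x - κ i ^ x) := rfl
    have hT : T κ z j x = κ j ^ x + (ρ * κ i) ^ x := by
      unfold T
      rw [h.zj]
    simp only [hB]
    rw [hR, hT, mul_pow]
    ring
  have hle1 : ∀ x, ‖c' * θ x‖ ≤ Cb := by
    intro x
    rw [norm_mul]
    calc ‖c'‖ * ‖θ x‖ ≤ ‖c'‖ * 1 := mul_le_mul_of_nonneg_left (hθ1 x) (norm_nonneg _)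
      _ = ‖c'‖ := mul_one _
      _ ≤ Cb := le_max_left _ _
  have hle2 : ∀ x, ‖c j * ρ ^ x‖ ≤ Cb := by
    intro x
    rw [norm_mul, norm_pow, hnρ, one_pow, mul_one]
    exact le_max_right _ _
  have hI : i ∉ (range (d + 1)).erase i := Finset.notMem_erase _ _
  have hjI : j ∈ (range (d + 1)).erase i :=
    Finset.mem_erase.2 ⟨Ne.symm hij, Finset.mem_range.2 (by omega)⟩
  have hcard : ((range (d + 1)).erase i).card = d := by
    rw [Finset.card_erase_of_mem (Finset.mem_range.2 (by omega)), Finset.card_range]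
    omega
  have hcore := core hTRB ((range (d + 1)).erase i) j hjI (sv κ z)
    (fun l _ => h.svpos l) (h.inj _ hI) e hE.mono c (T κ z)
    (fun l hl hlj x => h.normT (Finset.mem_erase.1 hl).1 hlj x) Cb hCb0 B
    (by
      intro x
      rw [h.svj]
      refine bound hCb0 (hBform x) (by rw [norm_pow]) ?_
        (add_le' (hle1 x) (le_max_right _ _)) (add_le' (hle2 x) (by rw [norm_neg]; exact hle1 x))
      rw [norm_pow]
      exact pow_le_pow_left₀ (norm_nonneg _) hlt.le x)
    (by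
      rcases hcon' with h1 | ⟨l0, hl0, hcl0⟩
      · left
        exact lt_of_lt_of_le (norm_pos_iff.2 h1) (le_max_left _ _)
      · by_cases h1 : l0 = i
        · exact absurd (h1 ▸ hci0) hcl0
        · by_cases h2 : l0 = j
          · left
            subst h2
            exact lt_of_lt_of_le (norm_pos_iff.2 hcl0) (le_max_right _ _)
          · right
            exact ⟨l0, Finset.mem_erase.2 ⟨h1, Finset.mem_range.2 (by omega)⟩, h2, hcl0⟩)
    (by
      intro k hk
      rw [hcard] at hk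
      have h1 := hsum k (by omega)
      rw [← Finset.add_sum_erase _ _ (Finset.mem_range.2 (show i < d + 1 by omega)),
        ← Finset.add_sum_erase _ _ hjI, hci0] at h1
      simp only [hB]
      linear_combination h1)
  obtain ⟨hCpos, k, hk, hk3⟩ := hcore
  rw [hcard] at hk
  have key : ∀ l, (l = k ∨ l = k + 1 ∨ l = k + 2) → ‖c' * (e l : L) + c j‖ < Cb := by
    intro l hl
    have hBl := hk3 l hl
    rw [h.svj] at hBl
    rcases Nat.eq_zero_or_pos (e l) with h0 | h0
    · rw [h0] at hBl ⊢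
      have h2 : B 0 = 2 * c j := by
        rw [hBform]
        simp only [hθ, Finset.range_zero, Finset.sum_empty, pow_zero]
        ring
      rw [h2, norm_mul, hD.two, one_mul, pow_zero, mul_one] at hBl
      rw [Nat.cast_zero, mul_zero, zero_add]
      exact hBl
    · have h1 : ‖c' * θ (e l) + c j‖ < Cb := by
        refine lead hCpos (hBform (e l)) (norm_pow _ _) ?_
          (add_le' (hle2 _) (by rw [norm_neg]; exact hle1 _)) hBl
        rw [norm_pow]
        exact pow_lt_pow_left₀ hlt (norm_nonneg _) h0.ne'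
      have h3 : c' * (e l : L) + c j = (c' * θ (e l) + c j) - c' * (θ (e l) - (e l : L)) := by ring
      rw [h3]
      apply sub_lt' h1
      rw [norm_mul]
      calc ‖c'‖ * ‖θ (e l) - (e l : L)‖ ≤ Cb * ‖θ (e l) - (e l : L)‖ :=
            mul_le_mul_of_nonneg_right (le_max_left _ _) (norm_nonneg _)
        _ < Cb * 1 := mul_lt_mul_of_pos_left (hθn _) hCpos
        _ = Cb := mul_one _
  have hk1 := key k (Or.inl rfl)
  have hk2 := key (k + 1) (Or.inr (Or.inl rfl))
  have hlt' : e k < e (k + 1) := hE.mono (by omega)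
  have hc' : ‖c'‖ < Cb := by
    have h3 := sub_lt' hk2 hk1
    have h4 : c' * (e (k + 1) : L) + c j - (c' * (e k : L) + c j) =
        c' * ((e (k + 1) - e k : ℕ) : L) := by
      rw [Nat.cast_sub hlt'.le]
      ring
    rw [h4, norm_mul, hD.num (e (k + 1) - e k) (by omega) ?_, mul_one] at h3
    · exact h3
    · have : e (k + 1) ≤ e (d + 1) := hE.mono.monotone (by omega)
      omega
  have hcj : ‖c j‖ = Cb := by
    rcases max_choice ‖c'‖ ‖c j‖ with h1 | h1
    · exfalso
      rw [← hCb] at h1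
      linarith
    · exact h1.symm
  have hsmall : ‖c' * (e k : L)‖ < Cb := by
    rw [norm_mul]
    calc ‖c'‖ * ‖(e k : L)‖ ≤ ‖c'‖ * 1 :=
          mul_le_mul_of_nonneg_left (IsUltrametricDist.norm_natCast_le_one L _) (norm_nonneg _)
      _ = ‖c'‖ := mul_one _
      _ < Cb := hc'
  have hne : ‖c' * (e k : L)‖ ≠ ‖c j‖ := by
    rw [hcj]
    exact hsmall.ne
  rw [IsUltrametricDist.norm_add_eq_max_of_norm_ne_norm hne, hcj, max_eq_right hsmall.le] at hk1
  exact lt_irrefl _ hk1

end Pool.Agent.Run7.h818.FW
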