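import Pool.Agent.Run7.h188.FW.Stm
set_option autoImplicit false
namespace Pool.Agent.Run7.h818.FW
open Finset Pool.Agent.Run7.h188.FW

variable {L : Type} [NormedField L] [IsUltrametricDist L]

lemma norm_sum_lt (I : Finset ℕ) (f : ℕ → L) {M : ℝ} (hM : 0 < M) (h : ∀ l ∈ I, ‖f l‖ < M) :
    ‖∑ l ∈ I, f l‖ < M := by
  classical
  induction I using Finset.induction_on with
  | empty => simpa using hM
  | insert a s ha ih =>
    rw [Finset.sum_insert ha]
    refine lt_of_le_of_lt (IsUltrametricDist.norm_add_le_max _ _) (max_lt (h a (by simp)) ?_)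
    exact ih fun l hl => h l (by simp [hl])

lemma add_lt {x y : L} {M : ℝ} (hx : ‖x‖ < M) (hy : ‖y‖ < M) : ‖x + y‖ < M :=
  lt_of_le_of_lt (IsUltrametricDist.norm_add_le_max _ _) (max_lt hx hy)

lemma sub_lt' {x y : L} {M : ℝ} (hx : ‖x‖ < M) (hy : ‖y‖ < M) : ‖x - y‖ < M := by
  rw [sub_eq_add_neg]
  exact add_lt hx (by rwa [norm_neg])

lemma add_le' {x y : L} {M : ℝ} (hx : ‖x‖ ≤ M) (hy : ‖y‖ ≤ M) : ‖x + y‖ ≤ M :=
  le_trans (IsUltrametricDist.norm_add_le_max _ _) (max_le hx hy)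

lemma core (hTRB : S_TRB) (I : Finset ℕ) (b : ℕ) (hb : b ∈ I) (s : ℕ → ℝ)
    (hs : ∀ l ∈ I, 0 < s l) (hinj : Set.InjOn s I) (e : ℕ → ℕ) (he : StrictMono e) (c : ℕ → L)
    (t : ℕ → ℕ → L) (ht : ∀ l ∈ I, l ≠ b → ∀ x, ‖t l x‖ = s l ^ x) (Cb : ℝ) (hCb : 0 ≤ Cb)
    (B : ℕ → L) (hB : ∀ x, ‖B x‖ ≤ Cb * s b ^ x)
    (hpos : 0 < Cb ∨ ∃ l ∈ I, l ≠ b ∧ c l ≠ 0)
    (hsum : ∀ k < I.card + 2, ∑ l ∈ I.erase b, c l * t l (e k) + B (e k) = 0) :
    0 < Cb ∧ ∃ k, k + 2 < I.card + 2 ∧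
      ∀ l, (l = k ∨ l = k + 1 ∨ l = k + 2) → ‖B (e l)‖ < Cb * s b ^ (e l) := by
  classical
  set C : ℕ → ℝ := fun l => if l = b then Cb else ‖c l‖ with hC
  have hCbb : C b = Cb := by simp [hC]
  have hCl : ∀ l, l ≠ b → C l = ‖c l‖ := fun l hl => by simp [hC, hl]
  have hC0 : ∀ l ∈ I, 0 ≤ C l := by
    intro l _
    by_cases h : l = b
    · rw [h, hCbb]; exact hCb
    · rw [hCl l h]; exact norm_nonneg _
  have hCpos : ∃ l ∈ I, 0 < C l := by
    rcases hpos with h | ⟨l, hl, hlb, hcl⟩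
    · exact ⟨b, hb, by rw [hCbb]; exact h⟩
    · exact ⟨l, hl, by rw [hCl l hlb]; exact norm_pos_iff.2 hcl⟩
  -- norms of the terms
  have hterm : ∀ l ∈ I, l ≠ b → ∀ x, ‖c l * t l x‖ = C l * s l ^ x := by
    intro l hl hlb x
    rw [norm_mul, ht l hl hlb x, hCl l hlb]
  have hmaxpos : ∀ x m, Mx I C s x m → 0 < C m * s m ^ x := by
    intro x m hm
    obtain ⟨l, hl, hl0⟩ := hCpos
    exact lt_of_lt_of_le (mul_pos hl0 (pow_pos (hs l hl) x)) (hm.2 l hl)
  -- unique maximiser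
  have hex : ∀ x, ∃ m, Mx I C s x m := by
    intro x
    obtain ⟨m, hm, hmm⟩ := Finset.exists_max_image I (fun l => C l * s l ^ x) ⟨b, hb⟩
    exact ⟨m, hm, hmm⟩
  have hdich : ∀ k < I.card + 2, (∃ i j, i ≠ j ∧ Mx I C s (e k) i ∧ Mx I C s (e k) j) ∨
      ∀ i, Mx I C s (e k) i → i = b := by
    intro k hk
    by_contra hcon
    push Not at hcon
    obtain ⟨h1, m, hm, hmb⟩ := hcon
    have huniq : ∀ l ∈ I, l ≠ m → C l * s l ^ (e k) < C m * s m ^ (e k) := by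
      intro l hl hlm
      rcases lt_or_eq_of_le (hm.2 l hl) with h | h
      · exact h
      · exact absurd hm (h1 l m hlm ⟨hl, fun j hj => by rw [h]; exact hm.2 j hj⟩)
    have hsplit := hsum k hk
    have hmI : m ∈ I.erase b := Finset.mem_erase.2 ⟨hmb, hm.1⟩
    rw [← Finset.add_sum_erase _ _ hmI] at hsplit
    have hneg : c m * t m (e k) =
        -(∑ l ∈ (I.erase b).erase m, c l * t l (e k)) - B (e k) := by
      linear_combination hsplit
    have hn := hterm m hm.1 hmb (e k)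
    have hM := hmaxpos _ _ hm
    have hlt : ‖c m * t m (e k)‖ < C m * s m ^ (e k) := by
      rw [hneg]
      apply sub_lt'
      · rw [norm_neg]
        apply norm_sum_lt _ _ hM
        intro l hl
        rw [Finset.mem_erase, Finset.mem_erase] at hl
        rw [hterm l hl.2.2 hl.2.1]
        exact huniq l hl.2.2 hl.1
      · refine lt_of_le_of_lt (hB _) ?_
        have := huniq b hb (Ne.symm hmb)
        rwa [hCbb] at this
    rw [hn] at hlt
    exact lt_irrefl _ hlt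
  obtain ⟨k, hk, hk3⟩ := hTRB I C s e b hb he hs hC0 hCpos hinj hdich
  have hfin : ∀ l, (l = k ∨ l = k + 1 ∨ l = k + 2) → 0 < Cb * s b ^ (e l) ∧
      ‖B (e l)‖ < Cb * s b ^ (e l) := by
    intro l hl
    obtain ⟨m, hm⟩ := hex (e l)
    have hmb := hk3 l hl m hm
    subst hmb
    have hM := hmaxpos _ _ hm
    rw [hCbb] at hM
    refine ⟨hM, ?_⟩
    have hlt : l < I.card + 2 := by rcases hl with h | h | h <;> omega
    have hs' := hsum l hlt
    have hneg : B (e l) = -(∑ a ∈ I.erase m, c a * t a (e l)) := by linear_combination hs'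
    rw [hneg, norm_neg]
    apply norm_sum_lt _ _ hM
    intro a ha
    rw [Finset.mem_erase] at ha
    rw [hterm a ha.2 ha.1]
    rcases lt_or_eq_of_le (hm.2 a ha.2) with h | h
    · rwa [hCbb] at h
    · exact absurd (hk3 l hl a ⟨ha.2, fun j hj => by rw [h]; exact hm.2 j hj⟩) ha.1
  refine ⟨?_, k, hk, fun l hl => (hfin l hl).2⟩
  have := (hfin k (Or.inl rfl)).1
  by_contra hneg
  have h0 : Cb = 0 := le_antisymm (not_lt.1 hneg) hCb
  rw [h0, zero_mul] at this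
  exact lt_irrefl _ this

end Pool.Agent.Run7.h818.FW
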