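import Pool.Agent.Run7.h818.FW.TCore
set_option autoImplicit false
namespace Pool.Agent.Run7.h818.FW
open Finset Pool.Agent.Run7.h188.FW

variable {L : Type} [NormedField L] [IsUltrametricDist L]

/-- Data at a tie. -/
structure Tie (κ : ℕ → L) (d : ℕ) (e : ℕ → ℕ) (z : L) (i j : ℕ) : Prop where
  hE : Exps d e
  hD : Dat κ d e
  hij : i ≠ j
  hlt : ‖κ i‖ < ‖κ j‖
  hz : ‖z‖ = ‖κ i * κ j‖

noncomputable def sv (κ : ℕ → L) (z : L) (l : ℕ) : ℝ := max ‖κ l‖ ‖z / κ l‖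

set_option linter.unusedSectionVars false

variable {κ : ℕ → L} {d : ℕ} {e : ℕ → ℕ} {z : L} {i j : ℕ}

lemma Tie.pos (h : Tie κ d e z i j) (l : ℕ) : 0 < ‖κ l‖ := norm_pos_iff.2 (h.hD.ne l)

lemma Tie.ndiv (h : Tie κ d e z i j) (l : ℕ) : ‖z / κ l‖ * ‖κ l‖ = ‖κ i‖ * ‖κ j‖ := by
  rw [norm_div, div_mul_cancel₀ _ (h.pos l).ne', h.hz, norm_mul]

lemma Tie.divi (h : Tie κ d e z i j) : ‖z / κ i‖ = ‖κ j‖ := by
  have := h.ndiv i
  have hp := h.pos i
  nlinarith [mul_left_cancel₀ hp.ne' (show ‖κ i‖ * ‖z / κ i‖ = ‖κ i‖ * ‖κ j‖ by linarith)]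

lemma Tie.divj (h : Tie κ d e z i j) : ‖z / κ j‖ = ‖κ i‖ := by
  have := h.ndiv j
  have hp := h.pos j
  exact mul_right_cancel₀ hp.ne' this

lemma Tie.svj (h : Tie κ d e z i j) : sv κ z j = ‖κ j‖ := by
  unfold sv
  rw [h.divj]
  exact max_eq_left h.hlt.le

lemma Tie.svpos (h : Tie κ d e z i j) (l : ℕ) : 0 < sv κ z l :=
  lt_of_lt_of_le (h.pos l) (le_max_left _ _)

lemma Tie.eq_of_norm (h : Tie κ d e z i j) {l m : ℕ} (hlm : ‖κ l‖ = ‖κ m‖) : l = m := by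
  have := h.hD.sep l l m m (by rw [norm_mul, norm_mul, hlm])
  rcases this with ⟨h1, _⟩ | ⟨h1, _⟩ <;> exact h1

lemma Tie.cross (h : Tie κ d e z i j) {l m : ℕ} (hlm : ‖κ l‖ = ‖z / κ m‖) :
    (l = i ∧ m = j) ∨ (l = j ∧ m = i) := by
  have h1 := h.ndiv m
  rw [← hlm] at h1
  exact h.hD.sep l m i j (by rw [norm_mul, norm_mul, h1])

lemma Tie.inj (h : Tie κ d e z i j) (I : Finset ℕ) (hI : i ∉ I) : Set.InjOn (sv κ z) I := by
  intro l hl m hm hlm
  have hli : l ≠ i := fun hh => hI (hh ▸ hl)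
  have hmi : m ≠ i := fun hh => hI (hh ▸ hm)
  unfold sv at hlm
  rcases max_choice ‖κ l‖ ‖z / κ l‖ with h1 | h1 <;> rcases max_choice ‖κ m‖ ‖z / κ m‖ with h2 | h2 <;>
    rw [h1, h2] at hlm
  · exact h.eq_of_norm hlm
  · rcases h.cross hlm with hh | hh
    · exact absurd hh.1 hli
    · exact absurd hh.2 hmi
  · rcases h.cross hlm.symm with hh | hh
    · exact absurd hh.1 hmi
    · exact absurd hh.2 hli
  · apply h.eq_of_norm
    have e1 := h.ndiv l
    have e2 := h.ndiv m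
    rw [hlm] at e1
    have hp : 0 < ‖z / κ m‖ := by
      have : 0 < ‖κ i‖ * ‖κ j‖ := mul_pos (h.pos i) (h.pos j)
      rw [← e2] at this
      exact (pos_iff_pos_of_mul_pos this).2 (h.pos m)
    exact mul_left_cancel₀ hp.ne' (e1.trans e2.symm)

lemma Tie.normT (h : Tie κ d e z i j) {l : ℕ} (hli : l ≠ i) (hlj : l ≠ j) (x : ℕ) :
    ‖T κ z l x‖ = sv κ z l ^ x := by
  unfold T sv
  rcases Nat.eq_zero_or_pos x with hx | hx
  · subst hx
    simp only [pow_zero]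
    have : (1 : L) + 1 = 2 := by norm_num
    rw [this]
    exact h.hD.two
  · have hne : ‖κ l‖ ≠ ‖z / κ l‖ := by
      intro hh
      rcases h.cross hh with hh | hh
      · exact hli hh.1
      · exact hlj hh.1
    have hne' : ‖κ l ^ x‖ ≠ ‖(z / κ l) ^ x‖ := by
      rw [norm_pow, norm_pow]
      intro hh
      exact hne ((pow_left_inj₀ (norm_nonneg _) (norm_nonneg _) hx.ne').1 hh)
    rw [IsUltrametricDist.norm_add_eq_max_of_norm_ne_norm hne', norm_pow, norm_pow]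
    rcases le_total ‖κ l‖ ‖z / κ l‖ with hc | hc
    · rw [max_eq_right hc, max_eq_right (pow_le_pow_left₀ (norm_nonneg _) hc x)]
    · rw [max_eq_left hc, max_eq_left (pow_le_pow_left₀ (norm_nonneg _) hc x)]

/-- `ρ = z / (κ i κ j)`. -/
noncomputable def rho (κ : ℕ → L) (z : L) (i j : ℕ) : L := z / (κ i * κ j)

lemma Tie.nrho (h : Tie κ d e z i j) : ‖rho κ z i j‖ = 1 := by
  unfold rho
  rw [norm_div, h.hz, div_self]
  rw [norm_mul]
  exact (mul_pos (h.pos i) (h.pos j)).ne'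

lemma Tie.zi (h : Tie κ d e z i j) : z / κ i = rho κ z i j * κ j := by
  unfold rho
  have h1 := h.hD.ne i
  have h2 := h.hD.ne j
  field_simp

lemma Tie.zj (h : Tie κ d e z i j) : z / κ j = rho κ z i j * κ i := by
  unfold rho
  have h1 := h.hD.ne i
  have h2 := h.hD.ne j
  field_simp

/-- cancellation: if a sum of a leading part and a small part is small then the leading
coefficient is small -/
lemma lead {a b u v : L} {C x : ℝ} {B : L} (hC : 0 < C) (hB : B = u * a + v * b)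
    (hu : ‖u‖ = x) (hv : ‖v‖ < x) (hb : ‖b‖ ≤ C) (hlt : ‖B‖ < C * x) : ‖a‖ < C := by
  have hx : 0 < x := lt_of_le_of_lt (norm_nonneg _) hv
  have h1 : ‖v * b‖ < C * x := by
    rw [norm_mul]
    calc ‖v‖ * ‖b‖ ≤ ‖v‖ * C := mul_le_mul_of_nonneg_left hb (norm_nonneg _)
      _ < x * C := mul_lt_mul_of_pos_right hv hC
      _ = C * x := mul_comm _ _
  have h2 : ‖u * a‖ < C * x := by
    have : u * a = B - v * b := by rw [hB]; ring
    rw [this]
    exact sub_lt' hlt h1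
  rw [norm_mul, hu, mul_comm] at h2
  exact lt_of_mul_lt_mul_right h2 hx.le

lemma bound {a b u v : L} {C x : ℝ} {B : L} (hC : 0 ≤ C) (hB : B = u * a + v * b)
    (hu : ‖u‖ ≤ x) (hv : ‖v‖ ≤ x) (ha : ‖a‖ ≤ C) (hb : ‖b‖ ≤ C) : ‖B‖ ≤ C * x := by
  have hx : 0 ≤ x := le_trans (norm_nonneg _) hu
  rw [hB]
  apply add_le'
  · rw [norm_mul, mul_comm]
    exact mul_le_mul ha hu (norm_nonneg _) hC
  · rw [norm_mul, mul_comm]
    exact mul_le_mul hb hv (norm_nonneg _) hC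

/-- the units near one -/
def near (L : Type) [NormedField L] [IsUltrametricDist L] : Subgroup Lˣ where
  carrier := {x | ‖(x : L) - 1‖ < 1}
  one_mem' := by simp
  mul_mem' := by
    intro a b ha hb
    simp only [Set.mem_ofPred_eq, Units.val_mul] at *
    have : (a : L) * b - 1 = (a - 1) * (b - 1) + ((a - 1) + (b - 1)) := by ring
    rw [this]
    apply add_lt
    · rw [norm_mul]
      nlinarith [norm_nonneg ((a : L) - 1), norm_nonneg ((b : L) - 1)]
    · exact add_lt ha hb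
  inv_mem' := by
    intro a ha
    simp only [Set.mem_ofPred_eq] at *
    have hna : ‖(a : L)‖ = 1 := by
      have h1 : (a : L) = (a - 1) + 1 := by ring
      have h2 : ‖(a : L) - 1‖ ≠ ‖(1 : L)‖ := by rw [norm_one]; exact ha.ne
      rw [h1, IsUltrametricDist.norm_add_eq_max_of_norm_ne_norm h2, norm_one]
      exact max_eq_right ha.le
    have h3 : ((a⁻¹ : Lˣ) : L) - 1 = -((a⁻¹ : Lˣ) : L) * (a - 1) := by
      have : ((a⁻¹ : Lˣ) : L) * a = 1 := a.inv_mul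
      linear_combination this
    rw [h3, norm_mul, norm_neg]
    have h4 : ‖((a⁻¹ : Lˣ) : L)‖ = 1 := by
      rw [Units.val_inv_eq_inv_val, norm_inv, hna, inv_one]
    rw [h4, one_mul]
    exact ha

lemma near_of_coprime {ρ : L} (hρ : ρ ≠ 0) {m n : ℕ} (hmn : Nat.Coprime m n)
    (hm : ‖ρ ^ m - 1‖ < 1) (hn : ‖ρ ^ n - 1‖ < 1) : ‖ρ - 1‖ < 1 := by
  set r : Lˣ := Units.mk0 ρ hρ with hr
  have h1 : r ^ m ∈ near L := by
    change ‖((r ^ m : Lˣ) : L) - 1‖ < 1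
    rw [Units.val_pow_eq_pow_val]
    exact hm
  have h2 : r ^ n ∈ near L := by
    change ‖((r ^ n : Lˣ) : L) - 1‖ < 1
    rw [Units.val_pow_eq_pow_val]
    exact hn
  have hg := Nat.gcd_eq_gcd_ab m n
  rw [hmn.gcd_eq_one] at hg
  have h3 : r = (r ^ m) ^ (Nat.gcdA m n) * (r ^ n) ^ (Nat.gcdB m n) := by
    rw [← zpow_natCast, ← zpow_natCast, ← zpow_mul, ← zpow_mul, ← zpow_add, ← hg]
    simp
  have h4 : r ∈ near L := by
    rw [h3]
    exact (near L).mul_mem ((near L).zpow_mem h1 _) ((near L).zpow_mem h2 _)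
  exact h4

end Pool.Agent.Run7.h818.FW
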